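import Mathlib
import Pool.Agent.Y16.AF.StmP
import Pool.Agent.Y274.YMTan

/-! Taylor expansion of the first derivative of the action in the background field
(job AF-TAY1, for helper16). -/

open MeasureTheory Matrix
open scoped Matrix.Norms.Frobenius Topology
open Pool.Agent.Y16.Gluon Pool.Agent.Y16.AF

namespace Pool.Agent.Y500.AF

set_option linter.unusedSectionVars false

noncomputable section

variable {N n : ℕ} {G : Subgroup (UU N)}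

/-- The real part of the trace. -/
def rt (N : ℕ) : Mt N →ₗ[ℝ] ℝ where
  toFun X := (trace X).re
  map_add' X Y := by simp [trace_add]
  map_smul' c X := by simp [trace_smul]

theorem rt_apply (X : Mt N) : rt N X = (trace X).re := rfl

theorem rt_le (X : Mt N) : |rt N X| ≤ N * ‖X‖ := by
  have h1 : ∀ i, ‖X i i‖ ≤ ‖X‖ := by
    intro i
    have h2 : ‖X‖ = ((∑ i, ∑ j, ‖X i j‖ ^ (2 : ℝ)) ^ (1 / 2 : ℝ) : ℝ) :=
      Matrix.frobenius_norm_def X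
    rw [h2]
    have h3 : ‖X i i‖ = ((‖X i i‖ ^ (2 : ℝ)) ^ (1 / 2 : ℝ) : ℝ) := by
      rw [← Real.rpow_mul (norm_nonneg _)]; norm_num
    rw [h3]
    refine Real.rpow_le_rpow (by positivity) ?_ (by norm_num)
    calc ‖X i i‖ ^ (2 : ℝ) ≤ ∑ j, ‖X i j‖ ^ (2 : ℝ) :=
          Finset.single_le_sum (f := fun j => ‖X i j‖ ^ (2 : ℝ)) (fun j _ => by positivity)
            (Finset.mem_univ i)
      _ ≤ _ := Finset.single_le_sum (f := fun i => ∑ j, ‖X i j‖ ^ (2 : ℝ))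
            (fun j _ => by positivity) (Finset.mem_univ i)
  calc |rt N X| = |(trace X).re| := rfl
    _ ≤ ‖trace X‖ := Complex.abs_re_le_norm _
    _ ≤ ∑ i, ‖X i i‖ := by
        unfold trace; exact norm_sum_le _ _
    _ ≤ ∑ _i : Fin N, ‖X‖ := Finset.sum_le_sum fun i _ => h1 i
    _ = N * ‖X‖ := by simp

theorem rt_comm (X Y : Mt N) : rt N (X * Y) = rt N (Y * X) := by
  rw [rt_apply, rt_apply, trace_mul_comm]

theorem rt_star (X : Mt N) : rt N Xᴴ = rt N X := by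
  rw [rt_apply, rt_apply, trace_conjTranspose]; simp

/-- The bilinear form of `ad T`. -/
def kk (T X Y : Mt N) : ℝ := rt N (Xᴴ * (T * Y - Y * T))

theorem rt_TAA (T X Y : Mt N) (hT : Tᴴ = -T) (hX : Xᴴ = -X) (hY : Yᴴ = -Y) :
    rt N (T * X * Y) = 1 / 2 * kk T X Y := by
  have h1 : rt N (T * X * Y) = - rt N (T * Y * X) := by
    rw [← rt_star (T * X * Y), conjTranspose_mul, conjTranspose_mul, hT, hX, hY]
    have : -Y * (-X * -T) = -(Y * X * T) := by noncomm_ring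
    rw [this, map_neg, rt_comm (Y * X) T, ← mul_assoc]
  have h2 : kk T X Y = rt N (T * X * Y) - rt N (T * Y * X) := by
    unfold kk
    rw [hX]
    have : -X * (T * Y - Y * T) = (X * Y) * T - (X * T * Y) := by noncomm_ring
    rw [this, map_sub, rt_comm (X * Y) T, mul_assoc X T Y, rt_comm X (T * Y), ← mul_assoc]
  rw [h2, h1]; ring

theorem kk_anti (T X Y : Mt N) (hT : Tᴴ = -T) (hX : Xᴴ = -X) (hY : Yᴴ = -Y) :
    kk T X Y = - kk T Y X := by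
  have h1 := rt_TAA T X Y hT hX hY
  have h2 := rt_TAA T Y X hT hY hX
  have h3 : rt N (T * X * Y) = - rt N (T * Y * X) := by
    rw [← rt_star (T * X * Y), conjTranspose_mul, conjTranspose_mul, hT, hX, hY]
    have : -Y * (-X * -T) = -(Y * X * T) := by noncomm_ring
    rw [this, map_neg, rt_comm (Y * X) T, ← mul_assoc]
  linarith

theorem rt_comm_kk (T X Y : Mt N) (hT : Tᴴ = -T) (hX : Xᴴ = -X) (hY : Yᴴ = -Y) :
    rt N ((T * X - X * T) * Y) = kk T X Y := by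
  have h1 : rt N ((T * X - X * T) * Y) = rt N (T * X * Y) - rt N (T * Y * X) := by
    have : (T * X - X * T) * Y = T * X * Y - X * (T * Y) := by noncomm_ring
    rw [this, map_sub, rt_comm X (T * Y)]
  rw [h1, rt_TAA T X Y hT hX hY, rt_TAA T Y X hT hY hX, kk_anti T Y X hT hY hX]; ring

/-- Products of almost tangent matrices. -/
theorem prod_diff (C M : ℝ) (hC : 0 ≤ C) (X Y A B : Mt N) (hX : ‖X‖ ≤ M) 
    (hA : ‖X - A‖ ≤ C * ‖X‖ ^ 2) (hB : ‖Y - B‖ ≤ C * ‖Y‖ ^ 2) (d : ℝ) (hXd : ‖X‖ ≤ d)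
    (hYd : ‖Y‖ ≤ d) :
    ‖X * Y - A * B‖ ≤ (C + (1 + C * M) * C) * d ^ 3 := by
  have hX0 := norm_nonneg X
  have hY0 := norm_nonneg Y
  have hM : 0 ≤ M := le_trans hX0 hX
  have hd : 0 ≤ d := le_trans hX0 hXd
  have hA' : ‖A‖ ≤ (1 + C * M) * d := by
    have h1 : A = X - (X - A) := by abel
    calc ‖A‖ ≤ ‖X‖ + ‖X - A‖ := by conv_lhs => rw [h1]
                                   exact norm_sub_le _ _
      _ ≤ ‖X‖ + C * ‖X‖ ^ 2 := by linarith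
      _ = (1 + C * ‖X‖) * ‖X‖ := by ring
      _ ≤ (1 + C * M) * d := by gcongr
  have h1 : X * Y - A * B = (X - A) * Y + A * (Y - B) := by noncomm_ring
  calc ‖X * Y - A * B‖ ≤ ‖X - A‖ * ‖Y‖ + ‖A‖ * ‖Y - B‖ := by
        rw [h1]
        exact (norm_add_le _ _).trans (add_le_add (norm_mul_le _ _) (norm_mul_le _ _))
    _ ≤ (C * d ^ 2) * d + ((1 + C * M) * d) * (C * d ^ 2) := by
        have h2 : ‖X - A‖ ≤ C * d ^ 2 := hA.trans (by gcongr)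
        have h3 : ‖Y - B‖ ≤ C * d ^ 2 := hB.trans (by gcongr)
        gcongr
    _ = _ := by ring

theorem rem4 (M d : ℝ) (W0 W1 W2 W3 : Mt N) (h0 : ‖W0‖ ≤ d) (h1 : ‖W1‖ ≤ d)
    (h2 : ‖W2‖ ≤ d) (h3 : ‖W3‖ ≤ d) (h3' : ‖W3‖ ≤ M) :
    ‖W0 * W1 * W2 + W0 * W1 * W3 + W0 * W2 * W3 + W1 * W2 * W3 + W0 * W1 * W2 * W3‖ ≤
      (4 + M) * d ^ 3 := by
  have hd : 0 ≤ d := (norm_nonneg _).trans h0
  have p3 : ∀ X Y Z : Mt N, ‖X‖ ≤ d → ‖Y‖ ≤ d → ‖Z‖ ≤ d → ‖X * Y * Z‖ ≤ d ^ 3 := by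
    intro X Y Z hX hY hZ
    calc ‖X * Y * Z‖ ≤ ‖X‖ * ‖Y‖ * ‖Z‖ :=
          (norm_mul_le _ _).trans (mul_le_mul_of_nonneg_right (norm_mul_le _ _) (norm_nonneg _))
      _ ≤ d * d * d := by gcongr
      _ = d ^ 3 := by ring
  have p4 : ‖W0 * W1 * W2 * W3‖ ≤ d ^ 3 * M :=
    (norm_mul_le _ _).trans (by
      have := p3 _ _ _ h0 h1 h2
      gcongr)
  have e1 := p3 _ _ _ h0 h1 h2
  have e2 := p3 _ _ _ h0 h1 h3
  have e3 := p3 _ _ _ h0 h2 h3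
  have e4 := p3 _ _ _ h1 h2 h3
  calc _ ≤ ‖W0 * W1 * W2‖ + ‖W0 * W1 * W3‖ + ‖W0 * W2 * W3‖ + ‖W1 * W2 * W3‖ +
        ‖W0 * W1 * W2 * W3‖ := by
        refine (norm_add_le _ _).trans (add_le_add_left ?_ _)
        refine (norm_add_le _ _).trans (add_le_add_left ?_ _)
        refine (norm_add_le _ _).trans (add_le_add_left ?_ _)
        exact norm_add_le _ _
    _ ≤ d ^ 3 + d ^ 3 + d ^ 3 + d ^ 3 + d ^ 3 * M := by linarith
    _ = _ := by ring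

theorem four_expand (W0 W1 W2 W3 : Mt N) :
    (1 + W0) * (1 + W1) * (1 + W2) * (1 + W3) = 1 + (W0 + W1 + W2 + W3) +
      (W0 * W1 + W0 * W2 + W0 * W3 + W1 * W2 + W1 * W3 + W2 * W3) +
      (W0 * W1 * W2 + W0 * W1 * W3 + W0 * W2 * W3 + W1 * W2 * W3 + W0 * W1 * W2 * W3) := by
  noncomm_ring

theorem rem3 (M d : ℝ) (Z W1 W2 W3 : Mt N) (h1 : ‖W1‖ ≤ d)
    (h2 : ‖W2‖ ≤ d) (h3 : ‖W3‖ ≤ d) (h3' : ‖W3‖ ≤ M) :
    ‖Z * (W1 * W2 + W1 * W3 + W2 * W3 + W1 * W2 * W3)‖ ≤ ‖Z‖ * ((3 + M) * d ^ 2) := by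
  have hd : 0 ≤ d := (norm_nonneg _).trans h1
  have p2 : ∀ X Y : Mt N, ‖X‖ ≤ d → ‖Y‖ ≤ d → ‖X * Y‖ ≤ d ^ 2 := by
    intro X Y hX hY
    calc ‖X * Y‖ ≤ ‖X‖ * ‖Y‖ := norm_mul_le _ _
      _ ≤ d * d := by gcongr
      _ = d ^ 2 := by ring
  have p4 : ‖W1 * W2 * W3‖ ≤ d ^ 2 * M :=
    (norm_mul_le _ _).trans (by
      have := p2 _ _ h1 h2
      gcongr)
  have e1 := p2 _ _ h1 h2
  have e2 := p2 _ _ h1 h3
  have e3 := p2 _ _ h2 h3
  refine (norm_mul_le _ _).trans (mul_le_mul_of_nonneg_left ?_ (norm_nonneg _))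
  calc _ ≤ ‖W1 * W2‖ + ‖W1 * W3‖ + ‖W2 * W3‖ + ‖W1 * W2 * W3‖ := by
        refine (norm_add_le _ _).trans (add_le_add_left ?_ _)
        refine (norm_add_le _ _).trans (add_le_add_left ?_ _)
        exact norm_add_le _ _
    _ ≤ d ^ 2 + d ^ 2 + d ^ 2 + d ^ 2 * M := by linarith
    _ = _ := by ring

theorem real_le (N T M K d : ℝ) (hN : 0 ≤ N) (hT : 0 ≤ T) (hK : 0 ≤ K) (hd : 0 ≤ d) :
    N * T * (3 + M + 3 * K) * 2 * d ^ 3 ≤ N * T * (4 + M + 6 * K) * 2 * d ^ 3 := by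
  have h : 0 ≤ N * T * (1 + 3 * K) * 2 * d ^ 3 := by positivity
  have h2 : N * T * (4 + M + 6 * K) * 2 * d ^ 3 = N * T * (3 + M + 3 * K) * 2 * d ^ 3 +
    N * T * (1 + 3 * K) * 2 * d ^ 3 := by ring
  linarith

/-- The main term and the error of a plaquette. -/
theorem plaq_one (C M : ℝ) (hC : 0 ≤ C) (T W0 W1 W2 W3 A0 A1 A2 A3 : Mt N) (hT : Tᴴ = -T)
    (hA0 : A0ᴴ = -A0) (hA1 : A1ᴴ = -A1) (hA2 : A2ᴴ = -A2) (hA3 : A3ᴴ = -A3)
    (m0 : ‖W0‖ ≤ M) (m1 : ‖W1‖ ≤ M) (m2 : ‖W2‖ ≤ M) (m3 : ‖W3‖ ≤ M)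
    (t0 : ‖W0 - A0‖ ≤ C * ‖W0‖ ^ 2) (t1 : ‖W1 - A1‖ ≤ C * ‖W1‖ ^ 2)
    (t2 : ‖W2 - A2‖ ≤ C * ‖W2‖ ^ 2) (t3 : ‖W3 - A3‖ ≤ C * ‖W3‖ ^ 2) (d : ℝ)
    (h0 : ‖W0‖ ≤ d) (h1 : ‖W1‖ ≤ d) (h2 : ‖W2‖ ≤ d) (h3 : ‖W3‖ ≤ d) (α τ : ℝ) :
    |-(α * rt N (T * ((1 + W0) * (1 + W1) * (1 + W2) * (1 + W3))) +
        τ * rt N ((T * (1 + W0) - (1 + W0) * T) * ((1 + W1) * (1 + W2) * (1 + W3)))) +
      α * (rt N (T * (1 + W0)) + rt N (T * (1 + W1)) + rt N (T * (1 + W2)) +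
        rt N (T * (1 + W3))) +
      α / 2 * (kk T A0 A1 + kk T A0 A2 + kk T A0 A3 + kk T A1 A2 + kk T A1 A3 + kk T A2 A3) +
      τ * (kk T A0 A1 + kk T A0 A2 + kk T A0 A3)| ≤
      (|α| + |τ|) * (N * ‖T‖ * (4 + M + 6 * (C + (1 + C * M) * C)) * 2) * d ^ 3 := by
  set K := C + (1 + C * M) * C with hK
  have hd : 0 ≤ d := (norm_nonneg _).trans h0
  have hM : 0 ≤ M := (norm_nonneg _).trans m0
  have hK0 : 0 ≤ K := by positivity
  have hT0 := norm_nonneg T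
  have hrT : rt N T = 0 := by
    have := rt_star T
    rw [hT, map_neg] at this
    linarith
  have pd : ∀ X Y A B : Mt N, ‖X‖ ≤ M → ‖X - A‖ ≤ C * ‖X‖ ^ 2 → ‖Y - B‖ ≤ C * ‖Y‖ ^ 2 →
      ‖X‖ ≤ d → ‖Y‖ ≤ d → |rt N (T * (X * Y - A * B))| ≤ N * (‖T‖ * (K * d ^ 3)) := by
    intro X Y A B e1 e2 e3 e4 e5
    have h := prod_diff C M hC X Y A B e1 e2 e3 d e4 e5
    calc |rt N (T * (X * Y - A * B))| ≤ N * ‖T * (X * Y - A * B)‖ := rt_le _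
      _ ≤ N * (‖T‖ * ‖X * Y - A * B‖) := by
          have := norm_mul_le T (X * Y - A * B)
          gcongr
      _ ≤ _ := by gcongr
  have pc : ∀ X Y A B : Mt N, ‖X‖ ≤ M → ‖Y‖ ≤ M → ‖X - A‖ ≤ C * ‖X‖ ^ 2 →
      ‖Y - B‖ ≤ C * ‖Y‖ ^ 2 → ‖X‖ ≤ d → ‖Y‖ ≤ d →
      |rt N ((T * X - X * T) * Y - (T * A - A * T) * B)| ≤ 2 * (N * (‖T‖ * (K * d ^ 3))) := by
    intro X Y A B e1 e1' e2 e3 e4 e5
    have h6 := pd X Y A B e1 e2 e3 e4 e5
    have h7 := pd Y X B A e1' e3 e2 e5 e4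
    have h8 : rt N ((T * X - X * T) * Y - (T * A - A * T) * B) =
        rt N (T * (X * Y - A * B)) - rt N (T * (Y * X - B * A)) := by
      have h9 : (T * X - X * T) * Y - (T * A - A * T) * B =
          T * (X * Y - A * B) - (X * (T * Y) - A * (T * B)) := by noncomm_ring
      have h10 : T * (Y * X - B * A) = T * Y * X - T * B * A := by noncomm_ring
      rw [h9, h10, map_sub, map_sub (rt N) (X * (T * Y)), map_sub (rt N) (T * Y * X),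
        rt_comm X (T * Y), rt_comm A (T * B)]
    rw [h8]
    calc _ ≤ |rt N (T * (X * Y - A * B))| + |rt N (T * (Y * X - B * A))| := abs_sub _ _
      _ ≤ _ := by linarith
  have q01 := pd W0 W1 A0 A1 m0 t0 t1 h0 h1
  have q02 := pd W0 W2 A0 A2 m0 t0 t2 h0 h2
  have q03 := pd W0 W3 A0 A3 m0 t0 t3 h0 h3
  have q12 := pd W1 W2 A1 A2 m1 t1 t2 h1 h2
  have q13 := pd W1 W3 A1 A3 m1 t1 t3 h1 h3
  have q23 := pd W2 W3 A2 A3 m2 t2 t3 h2 h3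
  have c01 := pc W0 W1 A0 A1 m0 m1 t0 t1 h0 h1
  have c02 := pc W0 W2 A0 A2 m0 m2 t0 t2 h0 h2
  have c03 := pc W0 W3 A0 A3 m0 m3 t0 t3 h0 h3
  set R := W0 * W1 * W2 + W0 * W1 * W3 + W0 * W2 * W3 + W1 * W2 * W3 + W0 * W1 * W2 * W3 with hR
  have hRn : |rt N (T * R)| ≤ N * (‖T‖ * ((4 + M) * d ^ 3)) := by
    calc |rt N (T * R)| ≤ N * ‖T * R‖ := rt_le _
      _ ≤ N * (‖T‖ * ‖R‖) := by
          have := norm_mul_le T R
          gcongr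
      _ ≤ _ := by
          have := rem4 M d W0 W1 W2 W3 h0 h1 h2 h3 m3
          gcongr
  set S := (T * W0 - W0 * T) * (W1 * W2 + W1 * W3 + W2 * W3 + W1 * W2 * W3) with hS
  have hSn : |rt N S| ≤ N * (2 * ‖T‖ * d * ((3 + M) * d ^ 2)) := by
    have h4 : ‖T * W0 - W0 * T‖ ≤ 2 * ‖T‖ * d := by
      calc ‖T * W0 - W0 * T‖ ≤ ‖T * W0‖ + ‖W0 * T‖ := norm_sub_le _ _
        _ ≤ ‖T‖ * ‖W0‖ + ‖W0‖ * ‖T‖ := add_le_add (norm_mul_le _ _) (norm_mul_le _ _)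
        _ ≤ ‖T‖ * d + d * ‖T‖ := by gcongr
        _ = _ := by ring
    calc |rt N S| ≤ N * ‖S‖ := rt_le _
      _ ≤ N * (‖T * W0 - W0 * T‖ * ((3 + M) * d ^ 2)) := by
          have := rem3 M d (T * W0 - W0 * T) W1 W2 W3 h1 h2 h3 m3
          gcongr
      _ ≤ _ := by gcongr
  have e1 : rt N (T * ((1 + W0) * (1 + W1) * (1 + W2) * (1 + W3))) =
      rt N (T * (1 + W0)) + rt N (T * (1 + W1)) + rt N (T * (1 + W2)) + rt N (T * (1 + W3)) +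
      (1 / 2 * (kk T A0 A1 + kk T A0 A2 + kk T A0 A3 + kk T A1 A2 + kk T A1 A3 + kk T A2 A3)) +
      (rt N (T * (W0 * W1 - A0 * A1)) + rt N (T * (W0 * W2 - A0 * A2)) +
       rt N (T * (W0 * W3 - A0 * A3)) + rt N (T * (W1 * W2 - A1 * A2)) +
       rt N (T * (W1 * W3 - A1 * A3)) + rt N (T * (W2 * W3 - A2 * A3))) + rt N (T * R) := by
    have k1 : kk T A0 A1 = 2 * rt N (T * A0 * A1) := by rw [rt_TAA T A0 A1 hT hA0 hA1]; ring
    have k2 : kk T A0 A2 = 2 * rt N (T * A0 * A2) := by rw [rt_TAA T A0 A2 hT hA0 hA2]; ring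
    have k3 : kk T A0 A3 = 2 * rt N (T * A0 * A3) := by rw [rt_TAA T A0 A3 hT hA0 hA3]; ring
    have k4 : kk T A1 A2 = 2 * rt N (T * A1 * A2) := by rw [rt_TAA T A1 A2 hT hA1 hA2]; ring
    have k5 : kk T A1 A3 = 2 * rt N (T * A1 * A3) := by rw [rt_TAA T A1 A3 hT hA1 hA3]; ring
    have k6 : kk T A2 A3 = 2 * rt N (T * A2 * A3) := by rw [rt_TAA T A2 A3 hT hA2 hA3]; ring
    rw [four_expand, ← hR, k1, k2, k3, k4, k5, k6]
    simp only [mul_add, mul_sub, map_add, map_sub, mul_one, hrT, mul_assoc]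
    ring
  have e2 : rt N ((T * (1 + W0) - (1 + W0) * T) * ((1 + W1) * (1 + W2) * (1 + W3))) =
      (kk T A0 A1 + kk T A0 A2 + kk T A0 A3) +
      (rt N ((T * W0 - W0 * T) * W1 - (T * A0 - A0 * T) * A1) +
       rt N ((T * W0 - W0 * T) * W2 - (T * A0 - A0 * T) * A2) +
       rt N ((T * W0 - W0 * T) * W3 - (T * A0 - A0 * T) * A3)) + rt N S := by
    have f1 : (T * (1 + W0) - (1 + W0) * T) * ((1 + W1) * (1 + W2) * (1 + W3)) =
        (T * W0 - W0 * T) + ((T * W0 - W0 * T) * W1 + (T * W0 - W0 * T) * W2 +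
          (T * W0 - W0 * T) * W3) + S := by
      rw [hS]; noncomm_ring
    have f2 : rt N (T * W0 - W0 * T) = 0 := by
      rw [map_sub, rt_comm W0 T, sub_self]
    rw [f1, map_add, map_add, map_add, map_add, f2, ← rt_comm_kk T A0 A1 hT hA0 hA1,
      ← rt_comm_kk T A0 A2 hT hA0 hA2, ← rt_comm_kk T A0 A3 hT hA0 hA3,
      map_sub (rt N) ((T * W0 - W0 * T) * W1), map_sub (rt N) ((T * W0 - W0 * T) * W2),
      map_sub (rt N) ((T * W0 - W0 * T) * W3)]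
    ring
  rw [e1, e2]
  set x1 := rt N (T * (W0 * W1 - A0 * A1))
  set x2 := rt N (T * (W0 * W2 - A0 * A2))
  set x3 := rt N (T * (W0 * W3 - A0 * A3))
  set x4 := rt N (T * (W1 * W2 - A1 * A2))
  set x5 := rt N (T * (W1 * W3 - A1 * A3))
  set x6 := rt N (T * (W2 * W3 - A2 * A3))
  set y1 := rt N ((T * W0 - W0 * T) * W1 - (T * A0 - A0 * T) * A1)
  set y2 := rt N ((T * W0 - W0 * T) * W2 - (T * A0 - A0 * T) * A2)
  set y3 := rt N ((T * W0 - W0 * T) * W3 - (T * A0 - A0 * T) * A3)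
  set z1 := rt N (T * R)
  set z2 := rt N S
  set u1 := rt N (T * (1 + W0))
  set u2 := rt N (T * (1 + W1))
  set u3 := rt N (T * (1 + W2))
  set u4 := rt N (T * (1 + W3))
  have key : -(α * (u1 + u2 + u3 + u4 + 1 / 2 * (kk T A0 A1 + kk T A0 A2 + kk T A0 A3 +
      kk T A1 A2 + kk T A1 A3 + kk T A2 A3) + (x1 + x2 + x3 + x4 + x5 + x6) + z1) +
      τ * (kk T A0 A1 + kk T A0 A2 + kk T A0 A3 + (y1 + y2 + y3) + z2)) +
      α * (u1 + u2 + u3 + u4) +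
      α / 2 * (kk T A0 A1 + kk T A0 A2 + kk T A0 A3 + kk T A1 A2 + kk T A1 A3 + kk T A2 A3) +
      τ * (kk T A0 A1 + kk T A0 A2 + kk T A0 A3) =
      -(α * (x1 + x2 + x3 + x4 + x5 + x6 + z1)) - τ * (y1 + y2 + y3 + z2) := by ring
  rw [key]
  have hx : |x1 + x2 + x3 + x4 + x5 + x6 + z1| ≤
      N * ‖T‖ * (4 + M + 6 * K) * 2 * d ^ 3 := by
    calc _ ≤ |x1| + |x2| + |x3| + |x4| + |x5| + |x6| + |z1| := by
          refine (abs_add_le _ _).trans (add_le_add_left ?_ _)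
          refine (abs_add_le _ _).trans (add_le_add_left ?_ _)
          refine (abs_add_le _ _).trans (add_le_add_left ?_ _)
          refine (abs_add_le _ _).trans (add_le_add_left ?_ _)
          refine (abs_add_le _ _).trans (add_le_add_left ?_ _)
          exact abs_add_le _ _
      _ ≤ 6 * (N * (‖T‖ * (K * d ^ 3))) + N * (‖T‖ * ((4 + M) * d ^ 3)) := by
          linarith
      _ = N * ‖T‖ * (4 + M + 6 * K) * d ^ 3 := by ring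
      _ ≤ N * ‖T‖ * (4 + M + 6 * K) * 2 * d ^ 3 := by
          have h4 : 0 ≤ N * ‖T‖ * (4 + M + 6 * K) * d ^ 3 := by positivity
          have h5 : N * ‖T‖ * (4 + M + 6 * K) * 2 * d ^ 3 =
            2 * (N * ‖T‖ * (4 + M + 6 * K) * d ^ 3) := by ring
          rw [h5]; linarith
  have hy : |y1 + y2 + y3 + z2| ≤ N * ‖T‖ * (4 + M + 6 * K) * 2 * d ^ 3 := by
    calc _ ≤ |y1| + |y2| + |y3| + |z2| := by
          refine (abs_add_le _ _).trans (add_le_add_left ?_ _)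
          refine (abs_add_le _ _).trans (add_le_add_left ?_ _)
          exact abs_add_le _ _
      _ ≤ 3 * (2 * (N * (‖T‖ * (K * d ^ 3)))) + N * (2 * ‖T‖ * d * ((3 + M) * d ^ 2)) := by
          linarith
      _ = N * ‖T‖ * (3 + M + 3 * K) * 2 * d ^ 3 := by ring
      _ ≤ _ := real_le N ‖T‖ M K d (Nat.cast_nonneg N) hT0 hK0 hd
  calc _ ≤ |α * (x1 + x2 + x3 + x4 + x5 + x6 + z1)| + |τ * (y1 + y2 + y3 + z2)| := by
        have := abs_sub (-(α * (x1 + x2 + x3 + x4 + x5 + x6 + z1))) (τ * (y1 + y2 + y3 + z2))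
        rwa [abs_neg] at this
    _ = |α| * |x1 + x2 + x3 + x4 + x5 + x6 + z1| + |τ| * |y1 + y2 + y3 + z2| := by
        rw [abs_mul, abs_mul]
    _ ≤ |α| * (N * ‖T‖ * (4 + M + 6 * K) * 2 * d ^ 3) +
        |τ| * (N * ‖T‖ * (4 + M + 6 * K) * 2 * d ^ 3) := by gcongr
    _ = _ := by ring

end

end Pool.Agent.Y500.AF
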