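import Mathlib
import Pool.Agent.Y500.AF.Tay1

/-! Taylor expansion of the first derivative of the action in the background field
(job AF-TAY1, for helper16), second part. -/

open MeasureTheory Matrix
open scoped Matrix.Norms.Frobenius Topology
open Pool.Agent.Y16.Gluon Pool.Agent.Y16.AF

namespace Pool.Agent.Y500.AF

set_option linter.unusedSectionVars false

noncomputable section

variable {N n : ℕ} {G : Subgroup (UU N)}

section grp

variable (B : LieBasis G n)

theorem X_skew (a : Fin n) : (B.X a)ᴴ = -B.X a :=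
  Pool.Agent.Y274.YMTan.skew (G := G) (B.X a) fun t => ⟨B.ex a t, B.ex_eq a t⟩

theorem T_skew (T : Mt N) (e : ℝ → G) (he : ∀ t, mt (e t) = NormedSpace.exp (t • T)) :
    Tᴴ = -T :=
  Pool.Agent.Y274.YMTan.skew (G := G) T fun t => ⟨e t, he t⟩

theorem mt_one : mt (1 : G) = 1 := rfl

theorem mt_mul (g h : G) : mt (g * h) = mt g * mt h := rfl

theorem mt_inv (g : G) : mt g⁻¹ = (mt g)ᴴ := rfl

theorem rt_skew (X : Mt N) (hX : Xᴴ = -X) : rt N X = 0 := by
  have := rt_star X
  rw [hX, map_neg] at this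
  linarith

theorem co_eq (g : G) (a : Fin n) : co B g a = rt N ((B.X a)ᴴ * mt g) := rfl

theorem co_one (a : Fin n) : co B (1 : G) a = 0 := by
  rw [co_eq, mt_one, mul_one, X_skew, map_neg, rt_skew _ (X_skew B a), neg_zero]

theorem rt_inv (T : Mt N) (hT : Tᴴ = -T) (g : G) : rt N (T * mt g⁻¹) = - rt N (T * mt g) := by
  rw [mt_inv, ← rt_star, conjTranspose_mul, conjTranspose_conjTranspose, hT, mul_neg, map_neg,
    rt_comm]

theorem co_inv (g : G) (a : Fin n) : co B g⁻¹ a = - co B g a := by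
  rw [co_eq, co_eq, X_skew, neg_mul, neg_mul, map_neg, map_neg, rt_inv _ (X_skew B a)]

/-- The tangent part of a group element. -/
def AA (g : G) : Mt N := ∑ a, co B g a • B.X a

theorem AA_skew (g : G) : (AA B g)ᴴ = - AA B g := by
  unfold AA
  rw [conjTranspose_sum, ← Finset.sum_neg_distrib]
  refine Finset.sum_congr rfl fun a _ => ?_
  rw [conjTranspose_smul, X_skew, star_trivial, smul_neg]

/-- The form of `ad T` in the coordinates. -/
def Kf (T : Mt N) (g h : G) : ℝ := ∑ a, ∑ b, co B g a * Jm B T a b * co B h b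

theorem kk_AA (T : Mt N) (g h : G) : kk T (AA B g) (AA B h) = Kf B T g h := by
  unfold kk Kf
  have h1 : (AA B g)ᴴ = ∑ a, co B g a • (B.X a)ᴴ := by
    unfold AA
    rw [conjTranspose_sum]
    refine Finset.sum_congr rfl fun a _ => ?_
    rw [conjTranspose_smul, star_trivial]
  have h2 : T * AA B h - AA B h * T = ∑ b, co B h b • (T * B.X b - B.X b * T) := by
    unfold AA
    rw [Finset.mul_sum, Finset.sum_mul, ← Finset.sum_sub_distrib]
    refine Finset.sum_congr rfl fun b _ => ?_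
    rw [mul_smul_comm, smul_mul_assoc, smul_sub]
  rw [h1, h2, Finset.sum_mul, map_sum]
  refine Finset.sum_congr rfl fun a _ => ?_
  rw [Finset.mul_sum, map_sum]
  refine Finset.sum_congr rfl fun b _ => ?_
  rw [smul_mul_assoc, mul_smul_comm, map_smul, map_smul, smul_eq_mul, smul_eq_mul]
  show co B g a * (co B h b * rt N ((B.X a)ᴴ * (T * B.X b - B.X b * T))) = co B g a *
    rt N ((B.X a)ᴴ * (T * B.X b - B.X b * T)) * co B h b
  ring

theorem Kf_anti (T : Mt N) (hT : Tᴴ = -T) (g h : G) : Kf B T g h = - Kf B T h g := by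
  rw [← kk_AA, ← kk_AA, kk_anti T _ _ hT (AA_skew B g) (AA_skew B h)]

theorem Kf_one_left (T : Mt N) (h : G) : Kf B T 1 h = 0 := by
  unfold Kf
  simp [co_one]

theorem Kf_one_right (T : Mt N) (h : G) : Kf B T h 1 = 0 := by
  unfold Kf
  simp [co_one]

theorem tangent' (hG : IsClosed (G : Set (UU N))) :
    ∃ C : ℝ, 0 < C ∧ ∀ g : G, ‖(mt g - 1) - AA B g‖ ≤ C * ‖mt g - 1‖ ^ 2 :=
  Pool.Agent.Y274.YMTan.tangent G hG B.X B.orth (fun a t => ⟨B.ex a t, B.ex_eq a t⟩) B.full

theorem norm_mt' (g : G) : ‖mt g‖ ≤ N := by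
  have h2 : ‖mt g‖ = ((∑ i, ∑ j, ‖mt g i j‖ ^ (2 : ℝ)) ^ (1 / 2 : ℝ) : ℝ) :=
    Matrix.frobenius_norm_def (mt g)
  rw [h2]
  have h3 : (∑ i, ∑ j, ‖mt g i j‖ ^ (2 : ℝ)) ≤ (N : ℝ) ^ (2 : ℝ) := by
    calc (∑ i, ∑ j, ‖mt g i j‖ ^ (2 : ℝ)) ≤ ∑ _i : Fin N, ∑ _j : Fin N, (1 : ℝ) := by
          refine Finset.sum_le_sum fun i _ => Finset.sum_le_sum fun j _ => ?_
          exact Real.rpow_le_one (norm_nonneg _) (entry_norm_bound_of_unitary (g : UU N).2 i j)
            (by norm_num)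
      _ = (N : ℝ) ^ (2 : ℝ) := by
          rw [Real.rpow_two]; simp [sq]
  calc _ ≤ ((N : ℝ) ^ (2 : ℝ)) ^ (1 / 2 : ℝ) := Real.rpow_le_rpow (by positivity) h3 (by norm_num)
    _ = N := by rw [← Real.rpow_mul (Nat.cast_nonneg N)]; norm_num

theorem norm_mt (g : G) : ‖mt g - 1‖ ≤ 2 * N := by
  calc ‖mt g - 1‖ ≤ ‖mt g‖ + ‖mt (1 : G)‖ := norm_sub_le _ _
    _ ≤ N + N := add_le_add (norm_mt' g) (norm_mt' 1)
    _ = _ := by ring

theorem norm_mt_inv (g : G) : ‖mt g⁻¹ - 1‖ = ‖mt g - 1‖ := by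
  rw [← Matrix.frobenius_norm_conjTranspose, conjTranspose_sub, mt_inv,
    conjTranspose_conjTranspose, conjTranspose_one]

/-- The expansion for one plaquette. -/
theorem plaq_two (hG : IsClosed (G : Set (UU N))) (T : Mt N) (hT : Tᴴ = -T) :
    ∃ C : ℝ, 0 ≤ C ∧ ∀ (g : Fin 4 → G) (d α τ : ℝ), (∀ i, ‖mt (g i) - 1‖ ≤ d) →
      |D1 T α τ g + α * (∑ i, rt N (T * mt (g i))) -
        1 / 2 * ∑ i, ∑ j, qc α τ i j * Kf B T (g i) (g j)| ≤ (|α| + |τ|) * C * d ^ 3 := by
  obtain ⟨C, hC, hCt⟩ := tangent' B hG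
  refine ⟨N * ‖T‖ * (4 + (2 * N : ℝ) + 6 * (C + (1 + C * (2 * N : ℝ)) * C)) * 2, by positivity,
    fun g d α τ hd => ?_⟩
  have key := plaq_one C (2 * N) hC.le T (mt (g 0) - 1) (mt (g 1) - 1) (mt (g 2) - 1)
    (mt (g 3) - 1) (AA B (g 0)) (AA B (g 1)) (AA B (g 2)) (AA B (g 3)) hT (AA_skew B _)
    (AA_skew B _) (AA_skew B _) (AA_skew B _) (norm_mt _) (norm_mt _) (norm_mt _) (norm_mt _)
    (hCt _) (hCt _) (hCt _) (hCt _) d (hd 0) (hd 1) (hd 2) (hd 3) α τ
  simp only [add_sub_cancel, kk_AA] at key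
  refine le_trans (le_of_eq ?_) key
  congr 1
  have z0 : Kf B T (g 0) (g 0) = 0 := by linarith [Kf_anti B T hT (g 0) (g 0)]
  have z1 : Kf B T (g 1) (g 1) = 0 := by linarith [Kf_anti B T hT (g 1) (g 1)]
  have z2 : Kf B T (g 2) (g 2) = 0 := by linarith [Kf_anti B T hT (g 2) (g 2)]
  have z3 : Kf B T (g 3) (g 3) = 0 := by linarith [Kf_anti B T hT (g 3) (g 3)]
  have a10 := Kf_anti B T hT (g 1) (g 0)
  have a20 := Kf_anti B T hT (g 2) (g 0)
  have a30 := Kf_anti B T hT (g 3) (g 0)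
  have a21 := Kf_anti B T hT (g 2) (g 1)
  have a31 := Kf_anti B T hT (g 3) (g 1)
  have a32 := Kf_anti B T hT (g 3) (g 2)
  have hD : D1 T α τ g = -(α * rt N (T * (mt (g 0) * mt (g 1) * mt (g 2) * mt (g 3))) +
      τ * rt N ((T * mt (g 0) - mt (g 0) * T) * (mt (g 1) * mt (g 2) * mt (g 3)))) := rfl
  have hq : ∑ i, ∑ j, qc α τ i j * Kf B T (g i) (g j) =
      -α * (Kf B T (g 0) (g 1) + Kf B T (g 0) (g 2) + Kf B T (g 0) (g 3) +
        Kf B T (g 1) (g 2) + Kf B T (g 1) (g 3) + Kf B T (g 2) (g 3)) -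
      2 * τ * (Kf B T (g 0) (g 1) + Kf B T (g 0) (g 2) + Kf B T (g 0) (g 3)) := by
    simp only [Fin.sum_univ_four, qc, z0, z1, z2, z3, a10, a20, a30, a21, a31, a32]
    simp [Fin.lt_def]
    ring
  rw [hD, hq, Fin.sum_univ_four]
  ring

end grp

section lattice

variable {L : ℕ} [NeZero L] (B : LieBasis G n)

theorem fx_dyn (U : Links L → G) (w : Links L) (h : dyn w) : fx U w = U w := by
  unfold fx; rw [if_pos h]

theorem fx_not (U : Links L → G) (w : Links L) (h : ¬ dyn w) : fx U w = 1 := by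
  unfold fx; rw [if_neg h]

/-- The coordinates of a leg. -/
theorem co_leg (V : Links L → G) (p : Pq L) (i : Fin 4) (a : Fin n) :
    co B (lg V p i) a = ∑ w : Links L, inc p i w * co B (V w) a := by
  unfold lg inc
  cases h : lv p.2.1 p.2.2 i with
  | none => simp [co_one]
  | some b =>
    rw [Finset.sum_eq_single (p.1 + ls p.2.2 i, b)]
    · simp only [and_self, if_true]
      unfold sg
      by_cases hs : sb p.2.2 i
      · simp [hs]
      · simp [hs, co_inv]
    · intro w _ hw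
      rw [if_neg, zero_mul]
      rintro ⟨h1, h2⟩
      apply hw
      have h3 : b = w.2 := by simpa using h1
      exact Prod.ext h2.symm h3.symm
    · intro h; exact absurd (Finset.mem_univ _) h

theorem Kf_leg (T : Mt N) (V : Links L → G) (p : Pq L) (i j : Fin 4) :
    Kf B T (lg V p i) (lg V p j) =
      ∑ w : Links L, ∑ w' : Links L, inc p i w * inc p j w' * Kf B T (V w) (V w') := by
  unfold Kf
  simp only [co_leg B V p]
  have h1 : ∀ w w' : Links L, inc p i w * inc p j w' * (∑ a, ∑ b, co B (V w) a * Jm B T a b *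
      co B (V w') b) = ∑ a, ∑ b, inc p i w * inc p j w' * (co B (V w) a * Jm B T a b *
      co B (V w') b) := by
    intro w w'
    rw [Finset.mul_sum]
    exact Finset.sum_congr rfl fun a _ => by rw [Finset.mul_sum]
  simp only [h1]
  have h2 : ∀ a b : Fin n, (∑ w : Links L, inc p i w * co B (V w) a) * Jm B T a b *
      (∑ w : Links L, inc p j w * co B (V w) b) = ∑ w : Links L, ∑ w' : Links L,
      inc p i w * inc p j w' * (co B (V w) a * Jm B T a b * co B (V w') b) := by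
    intro a b
    rw [Finset.sum_mul, Finset.sum_mul]
    refine Finset.sum_congr rfl fun w _ => ?_
    rw [Finset.mul_sum]
    refine Finset.sum_congr rfl fun w' _ => ?_
    ring
  simp only [h2]
  -- exchange the sums
  calc ∑ a, ∑ b, ∑ w : Links L, ∑ w' : Links L,
        inc p i w * inc p j w' * (co B (V w) a * Jm B T a b * co B (V w') b)
      = ∑ a, ∑ w : Links L, ∑ b, ∑ w' : Links L,
        inc p i w * inc p j w' * (co B (V w) a * Jm B T a b * co B (V w') b) :=
        Finset.sum_congr rfl fun a _ => Finset.sum_comm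
    _ = ∑ w : Links L, ∑ a, ∑ b, ∑ w' : Links L,
        inc p i w * inc p j w' * (co B (V w) a * Jm B T a b * co B (V w') b) :=
        Finset.sum_comm
    _ = ∑ w : Links L, ∑ a, ∑ w' : Links L, ∑ b,
        inc p i w * inc p j w' * (co B (V w) a * Jm B T a b * co B (V w') b) :=
        Finset.sum_congr rfl fun w _ => Finset.sum_congr rfl fun a _ => Finset.sum_comm
    _ = ∑ w : Links L, ∑ w' : Links L, ∑ a, ∑ b,
        inc p i w * inc p j w' * (co B (V w) a * Jm B T a b * co B (V w') b) :=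
        Finset.sum_congr rfl fun w _ => Finset.sum_comm

theorem sum_Qm (F : Links L → Links L → ℝ) :
    ∑ w : Links L, ∑ w' : Links L, Qm w w' * F w w' =
      ∑ p : Pq L, ∑ i, ∑ j, qc (al L p.2.2) (ta p.2.1 p.2.2) i j *
        ∑ w : Links L, ∑ w' : Links L, inc p i w * inc p j w' * F w w' := by
  have h1 : ∀ w w' : Links L, Qm w w' * F w w' = ∑ x : Pq L × Fin 4 × Fin 4,
      qc (al L x.1.2.2) (ta x.1.2.1 x.1.2.2) x.2.1 x.2.2 *
        (inc x.1 x.2.1 w * inc x.1 x.2.2 w' * F w w') := by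
    intro w w'
    unfold Qm
    rw [Fintype.sum_prod_type (α₁ := Pq L) (α₂ := Fin 4 × Fin 4), Finset.sum_mul]
    refine Finset.sum_congr rfl fun p _ => ?_
    rw [Fintype.sum_prod_type (α₁ := Fin 4) (α₂ := Fin 4), Finset.sum_mul]
    refine Finset.sum_congr rfl fun i _ => ?_
    rw [Finset.sum_mul]
    refine Finset.sum_congr rfl fun j _ => ?_
    ring
  have h2 : ∑ p : Pq L, ∑ i, ∑ j, qc (al L p.2.2) (ta p.2.1 p.2.2) i j *
        ∑ w : Links L, ∑ w' : Links L, inc p i w * inc p j w' * F w w' =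
      ∑ x : Pq L × Fin 4 × Fin 4, ∑ w : Links L, ∑ w' : Links L,
      qc (al L x.1.2.2) (ta x.1.2.1 x.1.2.2) x.2.1 x.2.2 *
        (inc x.1 x.2.1 w * inc x.1 x.2.2 w' * F w w') := by
    rw [Fintype.sum_prod_type (α₁ := Pq L) (α₂ := Fin 4 × Fin 4)]
    refine Finset.sum_congr rfl fun p _ => ?_
    rw [Fintype.sum_prod_type (α₁ := Fin 4) (α₂ := Fin 4)]
    refine Finset.sum_congr rfl fun i _ => Finset.sum_congr rfl fun j _ => ?_
    rw [Finset.mul_sum]
    refine Finset.sum_congr rfl fun w _ => ?_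
    rw [Finset.mul_sum]
  rw [h2]
  simp only [h1]
  calc _ = ∑ w : Links L, ∑ x : Pq L × Fin 4 × Fin 4, ∑ w' : Links L,
      qc (al L x.1.2.2) (ta x.1.2.1 x.1.2.2) x.2.1 x.2.2 *
        (inc x.1 x.2.1 w * inc x.1 x.2.2 w' * F w w') :=
        Finset.sum_congr rfl fun w _ => Finset.sum_comm
    _ = _ := Finset.sum_comm

theorem sum_dyn (f : Links L → ℝ) (hf : ∀ w, ¬ dyn w → f w = 0) :
    ∑ w : Dy L, f w.1 = ∑ w : Links L, f w := by
  have h1 : ∑ w ∈ Finset.univ.filter (dyn (L := L)), f w = ∑ w : Dy L, f w.1 :=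
    Finset.sum_subtype _ (by simp) f
  rw [← h1, Finset.sum_filter]
  refine Finset.sum_congr rfl fun w _ => ?_
  split_ifs with h
  · rfl
  · exact (hf w h).symm

theorem sum_form (T : Mt N) (U : Links L → G) :
    ∑ i : Dy L × Fin n, ∑ j : Dy L × Fin n,
        rs (Qm (L := L)) i.1 j.1 * Jm B T i.2 j.2 * (cA B U i * cA B U j) =
      ∑ p : Pq L, ∑ i, ∑ j, qc (al L p.2.2) (ta p.2.1 p.2.2) i j *
        Kf B T (lg (fx U) p i) (lg (fx U) p j) := by
  simp only [Kf_leg B T (fx U)]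
  rw [← sum_Qm (fun w w' => Kf B T (fx U w) (fx U w'))]
  rw [← sum_dyn (fun w => ∑ w' : Links L, Qm w w' * Kf B T (fx U w) (fx U w'))]
  swap
  · intro w hw
    refine Finset.sum_eq_zero fun w' _ => ?_
    rw [fx_not U w hw, Kf_one_left, mul_zero]
  rw [Fintype.sum_prod_type]
  refine Finset.sum_congr rfl fun w _ => ?_
  simp only []
  rw [← sum_dyn (fun w' => Qm w.1 w' * Kf B T (fx U w.1) (fx U w'))]
  swap
  · intro w' hw
    rw [fx_not U w' hw, Kf_one_right, mul_zero]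
  simp only [Fintype.sum_prod_type]
  rw [Finset.sum_comm]
  refine Finset.sum_congr rfl fun w' _ => ?_
  rw [fx_dyn U w.1 w.2, fx_dyn U w'.1 w'.2]
  unfold Kf
  rw [Finset.mul_sum]
  refine Finset.sum_congr rfl fun a _ => ?_
  rw [Finset.mul_sum]
  refine Finset.sum_congr rfl fun b _ => ?_
  show Qm w.1 w'.1 * Jm B T a b * (co B (U w.1) a * co B (U w'.1) b) = _
  ring

/-- The sum of the linear terms vanishes. -/
theorem linear_zero (T : Mt N) (hT : Tᴴ = -T) (V : Links L → G) :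
    ∑ p : Pq L, al L p.2.2 * ∑ i, rt N (T * mt (lg V p i)) = 0 := by
  have hT0 : rt N (T * mt (1 : G)) = 0 := by rw [mt_one, mul_one, rt_skew T hT]
  set s : Sp L → ℕ → ℝ := fun x m => rt N (T * mt (match vS L m 0 with
    | none => (1 : G)
    | some a => V (x, a))) with hs
  have h1 : ∀ (x : Sp L) (t : Fin L), ∑ i, rt N (T * mt (lg V (x, t, .inl 0) i)) =
      (rt N (T * mt (V (x, .inl t))) - rt N (T * mt (V (x + Pi.single 0 1, .inl t)))) +
        (s x (t + 1) - s x t) := by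
    intro x t
    have hv : vT L t = some (.inl t) := by
      unfold vT; rw [dif_pos t.2]
    have e0 : lg V (x, t, .inl 0) 0 = (V (x + Pi.single 0 1, .inl t))⁻¹ := by
      simp [lg, lv, sb, ls, hv]
    have e2 : lg V (x, t, .inl 0) 2 = V (x, .inl t) := by
      simp [lg, lv, sb, ls, hv]
    have e1 : rt N (T * mt (lg V (x, t, .inl 0) 1)) = - s x t := by
      rw [hs]
      simp only [lg, lv, sb, ls]
      cases h : vS L t 0 with
      | none => simp [hT0]
      | some a => simp [rt_inv T hT]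
    have e3 : rt N (T * mt (lg V (x, t, .inl 0) 3)) = s x (t + 1) := by
      rw [hs]
      simp only [lg, lv, sb, ls]
      cases h : vS L (t + 1) 0 with
      | none => simp [hT0]
      | some a => simp
    rw [Fin.sum_univ_four, e0, e1, e2, e3, rt_inv T hT]
    ring
  have h2 : ∑ p : Pq L, al L p.2.2 * ∑ i, rt N (T * mt (lg V p i)) =
      ∑ x : Sp L, ∑ t : Fin L, 1 / (L : ℝ) ^ 2 * ∑ i, rt N (T * mt (lg V (x, t, .inl 0) i)) := by
    rw [Fintype.sum_prod_type]
    refine Finset.sum_congr rfl fun x _ => ?_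
    rw [Fintype.sum_prod_type]
    refine Finset.sum_congr rfl fun t _ => ?_
    rw [Finset.sum_eq_single (.inl 0)]
    · simp [al]
    · intro κ _ hκ
      simp only [al, if_neg hκ, zero_mul]
    · intro h; exact absurd (Finset.mem_univ _) h
  rw [h2]
  simp only [h1, ← Finset.mul_sum]
  rw [Finset.sum_comm]
  have h3 : ∀ t : Fin L, ∑ x : Sp L, (rt N (T * mt (V (x, .inl t))) -
      rt N (T * mt (V (x + Pi.single 0 1, .inl t)))) = 0 := by
    intro t
    rw [Finset.sum_sub_distrib, sub_eq_zero]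
    exact (Equiv.sum_comp (Equiv.addRight (Pi.single 0 1 : Sp L))
      (fun x => rt N (T * mt (V (x, .inl t))))).symm
  have h4 : ∀ x : Sp L, ∑ t : Fin L, (s x (t + 1) - s x t) = 0 := by
    intro x
    rw [Fin.sum_univ_eq_sum_range (fun t => s x (t + 1) - s x t) L, Finset.sum_range_sub]
    have e0 : s x 0 = 0 := by
      simp [hs, vS, hT0]
    have eL : s x L = 0 := by
      simp [hs, vS, hT0]
    rw [e0, eL, sub_zero]
  have h5 : ∑ t : Fin L, ∑ x : Sp L, ((rt N (T * mt (V (x, .inl t))) -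
      rt N (T * mt (V (x + Pi.single 0 1, .inl t)))) + (s x (t + 1) - s x t)) = 0 := by
    simp only [Finset.sum_add_distrib]
    rw [Finset.sum_eq_zero (fun t _ => h3 t), zero_add, Finset.sum_comm]
    exact Finset.sum_eq_zero fun x _ => h4 x
  rw [h5, mul_zero]

theorem leg_cases (V : Links L → G) (p : Pq L) (i : Fin 4) :
    lg V p i = 1 ∨ ∃ w, lg V p i = V w ∨ lg V p i = (V w)⁻¹ := by
  cases h : lv p.2.1 p.2.2 i with
  | none => left; unfold lg; rw [h]
  | some b =>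
    right
    refine ⟨(p.1 + ls p.2.2 i, b), ?_⟩
    unfold lg; rw [h]
    by_cases hs : sb p.2.2 i = true
    · left; exact if_pos hs
    · right; exact if_neg hs

theorem rr_nonneg (U : Links L → G) : 0 ≤ rr U := by
  unfold rr
  exact Finset.sum_nonneg fun _ _ => norm_nonneg _

theorem single_le (f : Dy L → ℝ) (h : ∀ w, 0 ≤ f w) (w : Dy L) : f w ≤ ∑ w, f w :=
  Finset.single_le_sum (fun w _ => h w) (Finset.mem_univ w)

theorem fx_le (U : Links L → G) (w : Links L) : ‖mt (fx U w) - 1‖ ≤ rr U := by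
  by_cases hw : dyn w
  · have h1 := single_le (fun w : Dy L => ‖mt (U w.1) - 1‖) (fun w => norm_nonneg _) ⟨w, hw⟩
    have h2 : fx U w = U w := fx_dyn U w hw
    unfold rr
    rw [h2]
    exact h1
  · rw [fx_not U w hw, mt_one, sub_self, norm_zero]; exact rr_nonneg U

theorem leg_le (U : Links L → G) (p : Pq L) (i : Fin 4) :
    ‖mt (lg (fx U) p i) - 1‖ ≤ rr U := by
  rcases leg_cases (fx U) p i with h | ⟨w, h | h⟩
  · rw [h, mt_one, sub_self, norm_zero]; exact rr_nonneg U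
  · rw [h]; exact fx_le U w
  · rw [h, norm_mt_inv]; exact fx_le U w

theorem al_le (κ : Fin 3 ⊕ Fin 3) : |al L κ| ≤ 1 := by
  have hL : (1 : ℝ) ≤ L := by exact_mod_cast Nat.one_le_iff_ne_zero.2 (NeZero.ne L)
  unfold al
  split_ifs
  · rw [abs_of_nonneg (by positivity), div_le_one (by positivity)]
    exact one_le_pow₀ hL
  · simp

theorem ta_le (t : Fin L) (κ : Fin 3 ⊕ Fin 3) : |ta t κ| ≤ 1 := by
  have hL : (1 : ℝ) ≤ L := by exact_mod_cast Nat.one_le_iff_ne_zero.2 (NeZero.ne L)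
  have ht : (t : ℝ) ≤ L := by exact_mod_cast t.2.le
  have h1 : |(t : ℝ) / (L : ℝ) ^ 2| ≤ 1 := by
    rw [abs_of_nonneg (by positivity), div_le_one (by positivity)]
    nlinarith
  unfold ta
  cases κ with
  | inl j => simp only []; split_ifs
             · exact h1
             · simp
  | inr m => simp only []; split_ifs
             · simp
             · exact h1

theorem card_Pq : (Fintype.card (Pq L) : ℝ) = 6 * (L : ℝ) ^ 4 := by
  simp [Pq, Sp, ZMod.card]
  ring

end lattice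

theorem af_tay1 : S_TAY1 := by
  intro N n G hG B T e he
  have hT := T_skew T e he
  obtain ⟨C, hC, hp⟩ := plaq_two B hG T hT
  refine ⟨12 * C, fun L _ _ U => ?_⟩
  rw [sum_form]
  have hlin := linear_zero (L := L) T hT (fx U)
  have h1 : S1 T U - 1 / 2 * ∑ p : Pq L, ∑ i, ∑ j, qc (al L p.2.2) (ta p.2.1 p.2.2) i j *
      Kf B T (lg (fx U) p i) (lg (fx U) p j) =
      ∑ p : Pq L, (D1 T (al L p.2.2) (ta p.2.1 p.2.2) (lg (fx U) p) +
        al L p.2.2 * (∑ i, rt N (T * mt (lg (fx U) p i))) -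
        1 / 2 * ∑ i, ∑ j, qc (al L p.2.2) (ta p.2.1 p.2.2) i j *
          Kf B T (lg (fx U) p i) (lg (fx U) p j)) := by
    rw [Finset.sum_sub_distrib, Finset.sum_add_distrib, hlin, add_zero, Finset.mul_sum]
    rfl
  rw [h1]
  have h0 : 0 ≤ rr U := Finset.sum_nonneg fun w _ => norm_nonneg _
  calc _ ≤ ∑ p : Pq L, |D1 T (al L p.2.2) (ta p.2.1 p.2.2) (lg (fx U) p) +
        al L p.2.2 * (∑ i, rt N (T * mt (lg (fx U) p i))) -
        1 / 2 * ∑ i, ∑ j, qc (al L p.2.2) (ta p.2.1 p.2.2) i j *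
          Kf B T (lg (fx U) p i) (lg (fx U) p j)| := Finset.abs_sum_le_sum_abs _ _
    _ ≤ ∑ _p : Pq L, 2 * C * rr U ^ 3 := by
        refine Finset.sum_le_sum fun p _ => ?_
        refine (hp (lg (fx U) p) (rr U) _ _ (leg_le U p)).trans ?_
        have h2 := al_le (L := L) p.2.2
        have h3 := ta_le (L := L) p.2.1 p.2.2
        gcongr
        linarith
    _ = 12 * C * (L : ℝ) ^ 4 * rr U ^ 3 := by
        rw [Finset.sum_const, Finset.card_univ, nsmul_eq_mul, card_Pq]
        ring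

end

end Pool.Agent.Y500.AF
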